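import Pool.Agent.H9.CA.TarG

/-!
# Part U: existence of the ground model. Definitions and targets

`V1 = ZFSet.{1}` is the class of the sets of the next universe. The set `VV : V1` of all lifted sets
of `V = ZFSet.{0}` is a Grothendieck universe. We take a countable elementary substructure of
`(V1, ∈)` which contains `VV`, and collapse it to a set `W : V`. -/

set_option linter.unusedVariables false

open Ordinal Order Set
open scoped ZFSet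

namespace CAU

open SF CAA

/-- the sets of universe 1 -/
abbrev V1 : Type 2 := ZFSet.{1}

/-- the sequence `x, v 0, v 1, ...` -/
def cn {A : Type*} (x : A) (v : ℕ → A) : ℕ → A
  | 0 => x
  | n + 1 => v n

/-- satisfaction in a relational structure `(A, E)` -/
def St {A : Type*} (E : A → A → Prop) : Fml → (ℕ → A) → Prop
  | .mem i j, v => E (v i) (v j)
  | .eq i j, v => v i = v j
  | .prd _, _ => False
  | .neg φ, v => ¬ St E φ v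
  | .and φ ψ, v => St E φ v ∧ St E ψ v
  | .ex φ, v => ∃ x, St E φ (cn x v)

/-- `W` is a countable transitive set and `j` is an elementary embedding of `(W, ∈)` into `(V1, ∈)` -/
structure El (W : V) (j : V → V1) : Prop where
  ctb : ((W : V) : Set V).Countable
  tr : W.IsTransitive
  el : ∀ (φ : Fml) (v : ℕ → V), (∀ i, v i ∈ W) →
    (Sat (· ∈ W) φ v ↔ St (fun x y : V1 => x ∈ y) φ fun i => j (v i))

/-- UF: Löwenheim, Skolem and Mostowski -/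
def T_UF : Prop := ∀ s : V1, ∃ (W : V) (j : V → V1), El W j ∧ ∃ k ∈ W, j k = s

/-- the lift of a set to universe 1 -/
noncomputable def lft (x : V) : V1 := ZFSet.range fun y : {y // y ∈ x} => lft y.1
termination_by x.rank
decreasing_by exact ZFSet.rank_lt_of_mem y.2

/-- the set of all lifted sets -/
noncomputable def VV : V1 := ZFSet.range lft

/-- `f` is a function from `x` onto `y` (universe 1) -/
def Onto1 (f x y : V1) : Prop := ZFSet.IsFunc x y f ∧ ∀ b ∈ y, ∃ a ∈ x, ZFSet.pair a b ∈ f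

/-- `a` is an ordinal (universe 1) -/
def Ord1 (a : V1) : Prop := a.IsTransitive ∧ ∀ y ∈ a, y.IsTransitive

/-- UG: `VV` is a Grothendieck universe -/
def T_UG : Prop :=
  (∀ x ∈ VV, ∀ y ∈ x, y ∈ VV) ∧
  (∀ x ∈ VV, ∀ y, y ⊆ x → y ∈ VV) ∧
  (∀ x ∈ VV, ∃ y ∈ VV, ∀ z, z ⊆ x → z ∈ y) ∧
  (∀ x ∈ VV, ∃ y ∈ VV, ∀ z ∈ x, ∀ u ∈ z, u ∈ y) ∧
  (∀ x ∈ VV, ∀ F : V1 → V1, (∀ u ∈ x, F u ∈ VV) → ∃ y ∈ VV, ∀ u ∈ x, F u ∈ y) ∧
  (∃ o ∈ VV, ∅ ∈ o ∧ (∀ y ∈ o, insert y y ∈ o) ∧ ∀ y ∈ o, y = ∅ ∨ ∃ z ∈ o, y = insert z z) ∧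
  (∀ x ∈ VV, ∃ a ∈ VV, Ord1 a ∧ ∃ f ∈ VV, Onto1 f a x)

/-- UH: facts on `V1`: well-orders, Hartogs, collection -/
def T_UH : Prop :=
  (∀ x : V1, ∃ a f, Ord1 a ∧ Onto1 f a x) ∧
  (∀ x : V1, ∃ a, Ord1 a ∧ ∀ f, ¬ Onto1 f x a) ∧
  (∀ (x : V1) (R : V1 → V1 → Prop), (∀ u ∈ x, ∃ y, R u y) → ∃ b : V1, ∀ u ∈ x, ∃ y ∈ b, R u y)

/-- `K` is a Grothendieck universe of `W` -/
structure GU (W K : V) : Prop where
  mem : K ∈ W
  tr : K.IsTransitive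
  sub : ∀ x ∈ K, ∀ y ∈ W, y ⊆ x → y ∈ K
  pow : ∀ x ∈ K, ∃ y ∈ K, ∀ z ∈ W, z ⊆ x → z ∈ y
  un : ∀ x ∈ K, ∃ y ∈ K, ∀ z ∈ x, ∀ u ∈ z, u ∈ y
  om : om ∈ K
  rep : ∀ x ∈ K, ∀ f ∈ W, (∀ u ∈ x, ∀ y ∈ K, ∀ z ∈ K, ZFSet.pair u y ∈ f → ZFSet.pair u z ∈ f →
    y = z) → ∃ b ∈ K, ∀ u ∈ x, ∀ y ∈ K, ZFSet.pair u y ∈ f → y ∈ b
  wo : ∀ x ∈ K, ∃ α : Ordinal.{0}, α.toZFSet ∈ K ∧ ∃ f ∈ K, Onto f α.toZFSet x

/-- Hartogs: for every set there is an ordinal which is not an image -/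
def Hgs (W : V) : Prop := ∀ x ∈ W, ∃ χ : Ordinal.{0}, χ.toZFSet ∈ W ∧ ∀ f ∈ W, ¬ Onto f x χ.toZFSet

/-- UI: transfer -/
def T_UI : Prop := T_UG → T_UH → ∀ (W : V) (j : V → V1), El W j → W.Nonempty →
  ZFC (· ∈ W) ∧ Hgs W ∧ ∀ K ∈ W, j K = VV → GU W K

/-- UJ: a universe gives an inaccessible -/
def T_UJ : Prop := ∀ W K : V, ZFC (· ∈ W) → GU W K → ∃ κ : Ordinal.{0}, Inac (· ∈ W) κ

/-- UK: the constructible inner model -/
def T_UK : Prop := ∀ (W : V) (κ : Ordinal.{0}), ((W : V) : Set V).Countable → ZFC (· ∈ W) → Hgs W →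
  Inac (· ∈ W) κ → T_U

theorem t_U (hF : T_UF) (hG : T_UG) (hH : T_UH) (hI : T_UI) (hJ : T_UJ) (hK : T_UK) : T_U := by
  obtain ⟨W, j, h, k, hk, e⟩ := hF VV
  obtain ⟨z, hg, gu⟩ := hI hG hH W j h ⟨k, hk⟩
  obtain ⟨κ, hκ⟩ := hJ W k z (gu k hk e)
  exact hK W κ h.ctb z hg hκ

end CAU
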