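import Pool.Agent.H21.CA.UDefs

/-!
# Row UI: transfer -/

set_option linter.unusedVariables false

open Ordinal Order Set
open scoped ZFSet

namespace CAU

open SF CAA

/-! ### Renaming of variables -/

def lft1 (ρ : ℕ → ℕ) : ℕ → ℕ
  | 0 => 0
  | n + 1 => ρ n + 1

def ren : (ℕ → ℕ) → Fml → Fml
  | ρ, .mem i j => .mem (ρ i) (ρ j)
  | ρ, .eq i j => .eq (ρ i) (ρ j)
  | ρ, .prd i => .prd (ρ i)
  | ρ, .neg φ => .neg (ren ρ φ)
  | ρ, .and φ ψ => .and (ren ρ φ) (ren ρ ψ)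
  | ρ, .ex φ => .ex (ren (lft1 ρ) φ)

theorem satP_ren (M A : V → Prop) : ∀ (φ : Fml) (ρ : ℕ → ℕ) (v : ℕ → V),
    SatP M A (ren ρ φ) v ↔ SatP M A φ fun i => v (ρ i)
  | .mem i j, ρ, v => Iff.rfl
  | .eq i j, ρ, v => Iff.rfl
  | .prd i, ρ, v => Iff.rfl
  | .neg φ, ρ, v => not_congr (satP_ren M A φ ρ v)
  | .and φ ψ, ρ, v => and_congr (satP_ren M A φ ρ v) (satP_ren M A ψ ρ v)
  | .ex φ, ρ, v => by
      refine exists_congr fun x => and_congr Iff.rfl ?_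
      rw [satP_ren M A φ]
      have : (fun i => cons x v (lft1 ρ i)) = cons x fun i => v (ρ i) := by
        funext i
        cases i <;> rfl
      rw [this]

theorem st_ren {A : Type*} (E : A → A → Prop) : ∀ (φ : Fml) (ρ : ℕ → ℕ) (v : ℕ → A),
    St E (ren ρ φ) v ↔ St E φ fun i => v (ρ i)
  | .mem i j, ρ, v => Iff.rfl
  | .eq i j, ρ, v => Iff.rfl
  | .prd i, ρ, v => Iff.rfl
  | .neg φ, ρ, v => not_congr (st_ren E φ ρ v)
  | .and φ ψ, ρ, v => and_congr (st_ren E φ ρ v) (st_ren E ψ ρ v)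
  | .ex φ, ρ, v => by
      refine exists_congr fun x => ?_
      rw [st_ren E φ]
      have : (fun i => cn x v (lft1 ρ i)) = cn x fun i => v (ρ i) := by
        funext i
        cases i <;> rfl
      rw [this]

/-! ### Transferable pairs of relations -/

def Tr (W : V) (R : (ℕ → V) → Prop) (R1 : (ℕ → V1) → Prop) : Prop :=
  ∃ φ : Fml, (∀ v, (∀ i, v i ∈ W) → (Sat (· ∈ W) φ v ↔ R v)) ∧
    ∀ v, (St (fun x y : V1 => x ∈ y) φ v ↔ R1 v)

variable {W : V} {j : V → V1} {R S : (ℕ → V) → Prop} {R1 S1 : (ℕ → V1) → Prop}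

theorem cons_mem {x : V} {v : ℕ → V} (hx : x ∈ W) (hv : ∀ i, v i ∈ W) : ∀ i, cons x v i ∈ W
  | 0 => hx
  | n + 1 => hv n

theorem Tr.use (h : El W j) (t : Tr W R R1) (v : ℕ → V) (hv : ∀ i, v i ∈ W) :
    R v ↔ R1 fun i => j (v i) := by
  obtain ⟨φ, h1, h2⟩ := t
  rw [← h1 v hv, ← h2, h.el φ v hv]

theorem Tr.congr {R' : (ℕ → V) → Prop} {R1' : (ℕ → V1) → Prop} (t : Tr W R R1)
    (h : ∀ v, (∀ i, v i ∈ W) → (R v ↔ R' v)) (h1 : ∀ v, R1 v ↔ R1' v) : Tr W R' R1' := by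
  obtain ⟨φ, k, k1⟩ := t
  exact ⟨φ, fun v hv => (k v hv).trans (h v hv), fun v => (k1 v).trans (h1 v)⟩

theorem Tr.mem (a b : ℕ) : Tr W (fun v => v a ∈ v b) fun v => v a ∈ v b :=
  ⟨.mem a b, fun v hv => Iff.rfl, fun v => Iff.rfl⟩

theorem Tr.eq (a b : ℕ) : Tr W (fun v => v a = v b) fun v => v a = v b :=
  ⟨.eq a b, fun v hv => Iff.rfl, fun v => Iff.rfl⟩

theorem Tr.not (t : Tr W R R1) : Tr W (fun v => ¬ R v) fun v => ¬ R1 v := by
  obtain ⟨φ, k, k1⟩ := t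
  exact ⟨.neg φ, fun v hv => not_congr (k v hv), fun v => not_congr (k1 v)⟩

theorem Tr.and (t : Tr W R R1) (s : Tr W S S1) :
    Tr W (fun v => R v ∧ S v) fun v => R1 v ∧ S1 v := by
  obtain ⟨φ, k, k1⟩ := t
  obtain ⟨ψ, l, l1⟩ := s
  exact ⟨.and φ ψ, fun v hv => and_congr (k v hv) (l v hv), fun v => and_congr (k1 v) (l1 v)⟩

theorem Tr.or (t : Tr W R R1) (s : Tr W S S1) :
    Tr W (fun v => R v ∨ S v) fun v => R1 v ∨ S1 v :=
  (t.not.and s.not).not.congr (fun v hv => by tauto) (fun v => by tauto)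

theorem Tr.imp (t : Tr W R R1) (s : Tr W S S1) :
    Tr W (fun v => R v → S v) fun v => R1 v → S1 v :=
  (t.and s.not).not.congr (fun v hv => by tauto) (fun v => by tauto)

theorem Tr.iff (t : Tr W R R1) (s : Tr W S S1) :
    Tr W (fun v => (R v ↔ S v)) fun v => (R1 v ↔ S1 v) :=
  ((t.imp s).and (s.imp t)).congr (fun v hv => by tauto) (fun v => by tauto)

theorem Tr.ex (t : Tr W R R1) :
    Tr W (fun v => ∃ x ∈ W, R (cons x v)) fun v => ∃ x, R1 (cn x v) := by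
  obtain ⟨φ, k, k1⟩ := t
  refine ⟨.ex φ, fun v hv => ?_, fun v => exists_congr fun x => k1 _⟩
  refine exists_congr fun x => ?_
  constructor
  · rintro ⟨h1, h2⟩
    exact ⟨h1, (k _ (cons_mem h1 hv)).1 h2⟩
  · rintro ⟨h1, h2⟩
    exact ⟨h1, (k _ (cons_mem h1 hv)).2 h2⟩

theorem Tr.all (t : Tr W R R1) :
    Tr W (fun v => ∀ x ∈ W, R (cons x v)) fun v => ∀ x, R1 (cn x v) :=
  t.not.ex.not.congr (fun v hv => by push Not; rfl) (fun v => by push Not; rfl)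

theorem Tr.bex (hW : W.IsTransitive) (a : ℕ) (t : Tr W R R1) :
    Tr W (fun v => ∃ x ∈ v a, R (cons x v)) fun v => ∃ x ∈ v a, R1 (cn x v) := by
  refine (((Tr.mem 0 (a + 1)).and t).ex).congr (fun v hv => ?_) (fun v => Iff.rfl)
  constructor
  · rintro ⟨x, h1, h2, h3⟩
    exact ⟨x, h2, h3⟩
  · rintro ⟨x, h2, h3⟩
    exact ⟨x, hW.subset_of_mem (hv a) h2, h2, h3⟩

theorem Tr.ball (hW : W.IsTransitive) (a : ℕ) (t : Tr W R R1) :
    Tr W (fun v => ∀ x ∈ v a, R (cons x v)) fun v => ∀ x ∈ v a, R1 (cn x v) := by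
  refine (((Tr.mem 0 (a + 1)).imp t).all).congr (fun v hv => ?_) (fun v => Iff.rfl)
  constructor
  · intro h x hx
    exact h x (hW.subset_of_mem (hv a) hx) hx
  · intro h x _ hx
    exact h x hx

/-- renaming -/
theorem Tr.ren (ρ : ℕ → ℕ) (t : Tr W R R1) :
    Tr W (fun v => R fun i => v (ρ i)) fun v => R1 fun i => v (ρ i) := by
  obtain ⟨φ, k, k1⟩ := t
  refine ⟨CAU.ren ρ φ, fun v hv => ?_, fun v => ?_⟩
  · exact (satP_ren _ _ φ ρ v).trans (k _ fun i => hv (ρ i))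
  · exact (st_ren _ φ ρ v).trans (k1 _)

theorem Tr.fml (φ : Fml) : Tr W (fun v => Sat (· ∈ W) φ v)
    fun v => St (fun x y : V1 => x ∈ y) φ v :=
  ⟨φ, fun v hv => Iff.rfl, fun v => Iff.rfl⟩

/-! ### Derived relations -/

section gen

universe u

variable {a b c : ZFSet.{u}}

theorem sub_iff : a ⊆ b ↔ ∀ x ∈ a, x ∈ b := Iff.rfl

theorem upair_iff : a = {b, c} ↔ b ∈ a ∧ c ∈ a ∧ ∀ x ∈ a, x = b ∨ x = c := by
  constructor
  · rintro rfl
    simp
  · rintro ⟨h1, h2, h3⟩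
    ext x
    constructor
    · intro hx
      rw [ZFSet.mem_pair]
      exact h3 x hx
    · intro hx
      rcases ZFSet.mem_pair.1 hx with rfl | rfl
      · exact h1
      · exact h2

theorem pair_iff : a = ZFSet.pair b c ↔
    ∃ s ∈ a, ∃ t ∈ a, s = {b, b} ∧ t = {b, c} ∧ ∀ x ∈ a, x = s ∨ x = t := by
  have hbb : ({b, b} : ZFSet.{u}) = {b} := by
    ext x
    simp
  constructor
  · rintro rfl
    refine ⟨{b}, ?_, {b, c}, ?_, hbb.symm, rfl, ?_⟩
    · unfold ZFSet.pair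
      exact ZFSet.mem_pair.2 (Or.inl rfl)
    · unfold ZFSet.pair
      exact ZFSet.mem_pair.2 (Or.inr rfl)
    · intro x hx
      unfold ZFSet.pair at hx
      exact ZFSet.mem_pair.1 hx
  · rintro ⟨s, hs, t, ht, rfl, rfl, h⟩
    unfold ZFSet.pair
    rw [hbb] at hs h
    exact upair_iff.2 ⟨hs, ht, h⟩

theorem ins_iff : a = insert b c ↔ b ∈ a ∧ (∀ x ∈ c, x ∈ a) ∧ ∀ x ∈ a, x = b ∨ x ∈ c := by
  constructor
  · rintro rfl
    refine ⟨by simp, fun x hx => by simp [hx], fun x hx => ?_⟩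
    simpa using hx
  · rintro ⟨h1, h2, h3⟩
    ext x
    rw [ZFSet.mem_insert_iff]
    constructor
    · exact h3 x
    · rintro (rfl | h)
      · exact h1
      · exact h2 x h

theorem sUn_iff : a = (⋃₀ b : ZFSet) ↔ (∀ x ∈ a, ∃ y ∈ b, x ∈ y) ∧ ∀ y ∈ b, ∀ x ∈ y, x ∈ a := by
  constructor
  · rintro rfl
    exact ⟨fun x hx => ZFSet.mem_sUnion.1 hx, fun y hy x hx => ZFSet.mem_sUnion.2 ⟨y, hy, hx⟩⟩
  · rintro ⟨h1, h2⟩
    ext x
    rw [ZFSet.mem_sUnion]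
    exact ⟨h1 x, fun ⟨y, hy, hx⟩ => h2 y hy x hx⟩

theorem tr_iff : a.IsTransitive ↔ ∀ x ∈ a, ∀ y ∈ x, y ∈ a := Iff.rfl

theorem func_iff {x y f : ZFSet.{u}} : ZFSet.IsFunc x y f ↔
    (∀ p ∈ f, ∃ a ∈ x, ∃ b ∈ y, p = ZFSet.pair a b) ∧
    ∀ z ∈ x, ∃ w ∈ y, (∃ p ∈ f, p = ZFSet.pair z w) ∧
      ∀ w' ∈ y, (∃ p ∈ f, p = ZFSet.pair z w') → w' = w := by
  constructor
  · rintro ⟨h1, h2⟩
    refine ⟨fun p hp => ?_, fun z hz => ?_⟩
    · obtain ⟨a, ha, b, hb, e⟩ := ZFSet.mem_prod.1 (h1 hp)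
      exact ⟨a, ha, b, hb, e⟩
    · obtain ⟨w, hw, hu⟩ := h2 z hz
      obtain ⟨a, ha, b, hb, e⟩ := ZFSet.mem_prod.1 (h1 hw)
      obtain ⟨rfl, rfl⟩ := ZFSet.pair_injective e
      refine ⟨w, hb, ⟨_, hw, rfl⟩, ?_⟩
      rintro w' _ ⟨p, hp, rfl⟩
      exact hu w' hp
  · rintro ⟨h1, h2⟩
    refine ⟨fun p hp => ?_, fun z hz => ?_⟩
    · obtain ⟨a, ha, b, hb, rfl⟩ := h1 p hp
      exact ZFSet.pair_mem_prod.2 ⟨ha, hb⟩
    · obtain ⟨w, hw, ⟨p, hp, rfl⟩, hu⟩ := h2 z hz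
      refine ⟨w, hp, fun w' hw' => ?_⟩
      obtain ⟨a, ha, b, hb, e⟩ := h1 _ hw'
      obtain ⟨rfl, rfl⟩ := ZFSet.pair_injective e
      exact hu w' hb ⟨_, hw', rfl⟩

end gen

variable (hW : W.IsTransitive)

include hW

theorem Tr.subset (a b : ℕ) : Tr W (fun v => v a ⊆ v b) fun v => v a ⊆ v b :=
  (Tr.ball hW a (Tr.mem 0 (b + 1))).congr (fun v hv => Iff.rfl) (fun v => Iff.rfl)

theorem Tr.upair (a b c : ℕ) : Tr W (fun v => v a = ({v b, v c} : V))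
    fun v => v a = ({v b, v c} : V1) :=
  ((Tr.mem b a).and ((Tr.mem c a).and (Tr.ball hW a ((Tr.eq 0 (b + 1)).or
    (Tr.eq 0 (c + 1)))))).congr (fun v hv => upair_iff.symm) (fun v => upair_iff.symm)

theorem Tr.pair (a b c : ℕ) : Tr W (fun v => v a = ZFSet.pair (v b) (v c))
    fun v => v a = ZFSet.pair (v b) (v c) :=
  (Tr.bex hW a (Tr.bex hW (a + 1) ((Tr.upair hW 1 (b + 2) (b + 2)).and
    ((Tr.upair hW 0 (b + 2) (c + 2)).and (Tr.ball hW (a + 2) ((Tr.eq 0 2).or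
      (Tr.eq 0 1))))))).congr (fun v hv => pair_iff.symm) (fun v => pair_iff.symm)

theorem Tr.ins (a b c : ℕ) : Tr W (fun v => v a = (insert (v b) (v c) : V))
    fun v => v a = (insert (v b) (v c) : V1) :=
  ((Tr.mem b a).and ((Tr.ball hW c (Tr.mem 0 (a + 1))).and (Tr.ball hW a ((Tr.eq 0 (b + 1)).or
    (Tr.mem 0 (c + 1)))))).congr (fun v hv => ins_iff.symm) (fun v => ins_iff.symm)

theorem Tr.sUn (a b : ℕ) : Tr W (fun v => v a = (⋃₀ (v b) : ZFSet))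
    fun v => v a = (⋃₀ (v b) : ZFSet) :=
  ((Tr.ball hW a (Tr.bex hW (b + 1) (Tr.mem 1 0))).and (Tr.ball hW b (Tr.ball hW 0
    (Tr.mem 0 (a + 2))))).congr (fun v hv => sUn_iff.symm) (fun v => sUn_iff.symm)

theorem Tr.trans (a : ℕ) : Tr W (fun v => (v a).IsTransitive) fun v => (v a).IsTransitive :=
  (Tr.ball hW a (Tr.subset hW 0 (a + 1))).congr (fun v hv => Iff.rfl) (fun v => Iff.rfl)

theorem Tr.func (a b c : ℕ) : Tr W (fun v => ZFSet.IsFunc (v a) (v b) (v c))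
    fun v => ZFSet.IsFunc (v a) (v b) (v c) :=
  ((Tr.ball hW c (Tr.bex hW (a + 1) (Tr.bex hW (b + 2) (Tr.pair hW 2 1 0)))).and
    (Tr.ball hW a (Tr.bex hW (b + 1) ((Tr.bex hW (c + 2) (Tr.pair hW 0 2 1)).and
      (Tr.ball hW (b + 2) ((Tr.bex hW (c + 3) (Tr.pair hW 0 3 1)).imp (Tr.eq 0 1))))))).congr
    (fun v hv => func_iff.symm) (fun v => func_iff.symm)

theorem Tr.onto (a b c : ℕ) : Tr W (fun v => Onto (v a) (v b) (v c))
    fun v => Onto1 (v a) (v b) (v c) :=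
  ((Tr.func hW b c a).and (Tr.ball hW c (Tr.bex hW (b + 1) (Tr.bex hW (a + 2)
    (Tr.pair hW 0 1 2))))).congr
    (fun v hv => and_congr Iff.rfl (forall₂_congr fun x hx => by
      constructor
      · rintro ⟨y, hy, p, hp, e⟩
        exact ⟨y, hy, (show p = ZFSet.pair y x from e) ▸ hp⟩
      · rintro ⟨y, hy, hp⟩
        exact ⟨y, hy, _, hp, rfl⟩))
    (fun v => and_congr Iff.rfl (forall₂_congr fun x hx => by
      constructor
      · rintro ⟨y, hy, p, hp, e⟩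
        exact ⟨y, hy, (show p = ZFSet.pair y x from e) ▸ hp⟩
      · rintro ⟨y, hy, hp⟩
        exact ⟨y, hy, _, hp, rfl⟩))

theorem Tr.ord (a : ℕ) : Tr W (fun v => IsOrd (v a)) fun v => Ord1 (v a) :=
  ((Tr.trans hW a).and (Tr.ball hW a (Tr.trans hW 0))).congr
    (fun v hv => (isOrd_iff _).symm) (fun v => Iff.rfl)

theorem Tr.pm (a b c : ℕ) : Tr W (fun v => ZFSet.pair (v a) (v b) ∈ v c)
    fun v => ZFSet.pair (v a) (v b) ∈ v c :=
  (Tr.bex hW c (Tr.pair hW 0 (a + 1) (b + 1))).congr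
    (fun v hv => ⟨fun ⟨p, hp, e⟩ => (show p = ZFSet.pair (v a) (v b) from e) ▸ hp,
      fun h => ⟨_, h, rfl⟩⟩)
    (fun v => ⟨fun ⟨p, hp, e⟩ => (show p = ZFSet.pair (v a) (v b) from e) ▸ hp,
      fun h => ⟨_, h, rfl⟩⟩)

omit hW in
theorem ord_mem {x : V} (h : IsOrd x) : ∃ α : Ordinal.{0}, x = α.toZFSet := h

/-- the inductive characterisation of `ω` -/
def OmC.{u} (x : ZFSet.{u}) : Prop := ∅ ∈ x ∧ (∀ y ∈ x, insert y y ∈ x) ∧
    ∀ y ∈ x, y = ∅ ∨ ∃ z ∈ x, y = insert z z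

omit hW in
theorem empty_iff.{u} {a : ZFSet.{u}} : a = ∅ ↔ ∀ x ∈ a, ¬ x = x := by
  rw [ZFSet.eq_empty]
  simp

theorem Tr.emp (a : ℕ) : Tr W (fun v => v a = (∅ : V)) fun v => v a = (∅ : V1) :=
  (Tr.ball hW a (Tr.eq 0 0).not).congr (fun v hv => empty_iff.symm) (fun v => empty_iff.symm)

omit hW in
theorem omC_iff.{u} {x : ZFSet.{u}} : OmC x ↔ (∃ e ∈ x, e = ∅) ∧
    (∀ y ∈ x, ∃ s ∈ x, s = insert y y) ∧ ∀ y ∈ x, y = ∅ ∨ ∃ z ∈ x, y = insert z z := by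
  unfold OmC
  simp only [exists_eq_right]

theorem Tr.omC (a : ℕ) : Tr W (fun v => OmC (v a)) fun v => OmC (v a) :=
  ((Tr.bex hW a (Tr.emp hW 0)).and ((Tr.ball hW a (Tr.bex hW (a + 1) (Tr.ins hW 0 1 1))).and
    (Tr.ball hW a ((Tr.emp hW 0).or (Tr.bex hW (a + 1) (Tr.ins hW 1 0 0)))))).congr
    (fun v hv => omC_iff.symm) (fun v => omC_iff.symm)

/-! ### The axioms -/

omit hW in
theorem zfc_W (hG : T_UG) (hH : T_UH) (h : El W j) {w : V} (hw : w ∈ W) : ZFC (· ∈ W) where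
  trans x hx y hy := h.tr.subset_of_mem hx hy
  pair x y hx hy := by
    have t := ((Tr.upair h.tr 0 1 2).ex).use h (cons x fun _ => y) (cons_mem hx fun _ => hy)
    obtain ⟨z, hz, e⟩ := t.2 ⟨({j x, j y} : V1), rfl⟩
    exact (show z = {x, y} from e) ▸ hz
  union x hx := by
    have t := ((Tr.sUn h.tr 0 1).ex).use h (fun _ => x) fun _ => hx
    obtain ⟨z, hz, e⟩ := t.2 ⟨(⋃₀ (j x) : ZFSet), rfl⟩
    exact (show z = (⋃₀ x : ZFSet) from e) ▸ hz
  inf := by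
    obtain ⟨o, -, ho⟩ := hG.2.2.2.2.2.1
    have t := ((Tr.omC h.tr 0).ex).use h (fun _ => w) fun _ => hw
    obtain ⟨z, hz, e⟩ := t.2 ⟨o, ho⟩
    have e' : z = om := (om_char z).2 e
    have hz' := hz
    rw [e'] at hz'
    exact hz'
  sep φ v a hv ha := by
    have t0 : Tr W (fun w => Sat (· ∈ W) φ (cons (w 0) fun i => w (i + 3)))
        (fun w => St (fun x y : V1 => x ∈ y) φ (cn (w 0) fun i => w (i + 3))) := by
      refine ((Tr.fml φ).ren (fun i => if i = 0 then 0 else i + 2)).congr (fun w hw => ?_)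
        fun w => ?_
      · have : (fun i => w (if i = 0 then 0 else i + 2)) = cons (w 0) fun i => w (i + 3) := by
          funext i
          cases i <;> rfl
        rw [this]
      · have : (fun i => w (if i = 0 then 0 else i + 2)) = cn (w 0) fun i => w (i + 3) := by
          funext i
          cases i <;> rfl
        rw [this]
    have t := ((((Tr.mem 0 1).iff ((Tr.mem 0 2).and t0)).all).ex).use h (cons a v)
      (cons_mem ha hv)
    have h1 : ∀ u, u ∈ (j a).sep (fun u => St (fun x y : V1 => x ∈ y) φ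
        (cn u fun i => j (v i))) ↔ u ∈ j a ∧ St (fun x y : V1 => x ∈ y) φ
        (cn u fun i => j (v i)) := fun u => ZFSet.mem_sep
    obtain ⟨z, hz, e⟩ := t.2 ⟨_, h1⟩
    have : z = a.sep fun z => Sat (· ∈ W) φ (cons z v) := by
      ext u
      rw [ZFSet.mem_sep]
      constructor
      · intro hu
        exact (e u (h.tr.subset_of_mem hz hu)).1 hu
      · intro hu
        exact (e u (h.tr.subset_of_mem ha hu.1)).2 hu
    exact this ▸ hz
  coll φ v a hv ha hc := by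
    have t0 : Tr W (fun w => Sat (· ∈ W) φ (cons (w 0) (cons (w 1) fun i => w (i + 3))))
        (fun w => St (fun x y : V1 => x ∈ y) φ (cn (w 0) (cn (w 1) fun i => w (i + 3)))) := by
      refine ((Tr.fml φ).ren (fun i => if i = 0 then 0 else if i = 1 then 1 else i + 1)).congr
        (fun w hw => ?_) fun w => ?_
      · have : (fun i => w (if i = 0 then 0 else if i = 1 then 1 else i + 1)) =
            cons (w 0) (cons (w 1) fun i => w (i + 3)) := by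
          funext i
          rcases i with _ | _ | i <;> rfl
        rw [this]
      · have : (fun i => w (if i = 0 then 0 else if i = 1 then 1 else i + 1)) =
            cn (w 0) (cn (w 1) fun i => w (i + 3)) := by
          funext i
          rcases i with _ | _ | i <;> rfl
        rw [this]
    have t1 : Tr W (fun w => Sat (· ∈ W) φ (cons (w 0) (cons (w 1) fun i => w (i + 4))))
        (fun w => St (fun x y : V1 => x ∈ y) φ (cn (w 0) (cn (w 1) fun i => w (i + 4)))) := by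
      refine ((Tr.fml φ).ren (fun i => if i = 0 then 0 else if i = 1 then 1 else i + 2)).congr
        (fun w hw => ?_) fun w => ?_
      · have : (fun i => w (if i = 0 then 0 else if i = 1 then 1 else i + 2)) =
            cons (w 0) (cons (w 1) fun i => w (i + 4)) := by
          funext i
          rcases i with _ | _ | i <;> rfl
        rw [this]
      · have : (fun i => w (if i = 0 then 0 else if i = 1 then 1 else i + 2)) =
            cn (w 0) (cn (w 1) fun i => w (i + 4)) := by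
          funext i
          rcases i with _ | _ | i <;> rfl
        rw [this]
    have t := ((Tr.ball h.tr 0 t0.ex).imp (Tr.ex (Tr.ball h.tr 1 (Tr.bex h.tr 1 t1)))).use h
      (cons a v) (cons_mem ha hv)
    refine t.2 (fun hc1 => ?_) hc
    exact hH.2.2 (j a) (fun u y => St (fun x y : V1 => x ∈ y) φ (cn y (cn u fun i => j (v i)))) hc1
  wo x hx := by
    have t := ((((Tr.ord h.tr 1).and (Tr.onto h.tr 0 1 2)).ex).ex).use h (fun _ => x) fun _ => hx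
    obtain ⟨a, f, h1, h2⟩ := hH.1 (j x)
    obtain ⟨a, ha, f, hf, ho, e⟩ := t.2 ⟨a, f, h1, h2⟩
    obtain ⟨α, rfl⟩ := ord_mem ho
    exact ⟨α, f, hf, e⟩
  pow x hx := by
    have t := ((((Tr.subset h.tr 0 2).imp (Tr.mem 0 1)).all).ex).use h (fun _ => x) fun _ => hx
    exact t.2 ⟨(j x).powerset, fun z hz => ZFSet.mem_powerset.2 hz⟩

omit hW in
theorem hgs_W (hH : T_UH) (h : El W j) : Hgs W := by
  intro x hx
  have t := (((Tr.ord h.tr 0).and ((Tr.onto h.tr 0 2 1).not).all).ex).use h (fun _ => x)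
    fun _ => hx
  obtain ⟨a, h1, h2⟩ := hH.2.1 (j x)
  obtain ⟨a, ha, ho, e⟩ := t.2 ⟨a, h1, h2⟩
  obtain ⟨α, rfl⟩ := ord_mem ho
  exact ⟨α, ha, e⟩

omit hW in
theorem gu_W (hG : T_UG) (h : El W j) {K : V} (hK : K ∈ W) (e : j K = VV) : GU W K where
  mem := hK
  tr := by
    have t := (Tr.ball h.tr 0 (Tr.ball h.tr 0 (Tr.mem 0 2))).use h (fun _ => K) fun _ => hK
    refine t.2 ?_
    show ∀ x ∈ j K, ∀ y ∈ x, y ∈ j K
    rw [e]
    exact hG.1
  sub := by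
    have t := (Tr.ball h.tr 0 (((Tr.subset h.tr 0 1).imp (Tr.mem 0 2)).all)).use h (fun _ => K)
      fun _ => hK
    refine t.2 ?_
    show ∀ x ∈ j K, ∀ y, y ⊆ x → y ∈ j K
    rw [e]
    exact hG.2.1
  pow := by
    have t := (Tr.ball h.tr 0 (Tr.bex h.tr 1 (((Tr.subset h.tr 0 2).imp (Tr.mem 0 1)).all))).use h
      (fun _ => K) fun _ => hK
    refine t.2 ?_
    show ∀ x ∈ j K, ∃ y ∈ j K, ∀ z, z ⊆ x → z ∈ y
    rw [e]
    exact hG.2.2.1
  un := by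
    have t := (Tr.ball h.tr 0 (Tr.bex h.tr 1 (Tr.ball h.tr 1 (Tr.ball h.tr 0 (Tr.mem 0 2))))).use h
      (fun _ => K) fun _ => hK
    refine t.2 ?_
    show ∀ x ∈ j K, ∃ y ∈ j K, ∀ z ∈ x, ∀ u ∈ z, u ∈ y
    rw [e]
    exact hG.2.2.2.1
  om := by
    have t := (Tr.bex h.tr 0 (Tr.omC h.tr 0)).use h (fun _ => K) fun _ => hK
    have h1 : ∃ o ∈ j K, OmC o := by
      rw [e]
      exact hG.2.2.2.2.2.1
    obtain ⟨z, hz, e⟩ := t.2 h1
    have e' : z = SF.om := (om_char z).2 e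
    rw [← e']
    exact hz
  rep := by
    have t := (Tr.ball h.tr 0 (((Tr.ball h.tr 1 (Tr.ball h.tr 3 (Tr.ball h.tr 4
      ((Tr.pm h.tr 2 1 3).imp ((Tr.pm h.tr 2 0 3).imp (Tr.eq 1 0)))))).imp
      (Tr.bex h.tr 2 (Tr.ball h.tr 2 (Tr.ball h.tr 4 ((Tr.pm h.tr 1 0 3).imp
        (Tr.mem 0 2)))))).all)).use h (fun _ => K) fun _ => hK
    have h1 : ∀ x ∈ j K, ∀ f : V1, (∀ u ∈ x, ∀ y ∈ j K, ∀ z ∈ j K, ZFSet.pair u y ∈ f →
        ZFSet.pair u z ∈ f → y = z) → ∃ b ∈ j K, ∀ u ∈ x, ∀ y ∈ j K,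
        ZFSet.pair u y ∈ f → y ∈ b := by
      rw [e]
      intro x hx f hf
      classical
      obtain ⟨b, hb, h2⟩ := hG.2.2.2.2.1 x hx (fun u => if k : ∃ y ∈ VV, ZFSet.pair u y ∈ f then
        k.choose else x) (fun u hu => by
          split_ifs with k
          · exact k.choose_spec.1
          · exact hx)
      refine ⟨b, hb, fun u hu y hy hp => ?_⟩
      have k : ∃ y ∈ VV, ZFSet.pair u y ∈ f := ⟨y, hy, hp⟩
      have h3 := h2 u hu
      rw [dif_pos k] at h3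
      rwa [hf u hu y hy _ k.choose_spec.1 hp k.choose_spec.2]
    exact t.2 h1
  wo := by
    have t := (Tr.ball h.tr 0 (Tr.bex h.tr 1 ((Tr.ord h.tr 0).and
      (Tr.bex h.tr 2 (Tr.onto h.tr 0 1 2))))).use h (fun _ => K) fun _ => hK
    have h1 : ∀ x ∈ j K, ∃ a ∈ j K, Ord1 a ∧ ∃ f ∈ j K, Onto1 f a x := by
      rw [e]
      exact hG.2.2.2.2.2.2
    intro x hx
    obtain ⟨a, ha, ho, f, hf, k⟩ := t.2 h1 x hx
    obtain ⟨α, rfl⟩ := ord_mem ho
    exact ⟨α, ha, f, hf, k⟩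

omit hW in
theorem pf_UI : T_UI := by
  intro hG hH W j h ⟨w, hw⟩
  exact ⟨zfc_W hG hH h hw, hgs_W hH h, fun K hK e => gu_W hG h hK e⟩

end CAU
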